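import Pool.Agent.L7h59.PP.Stm
import Pool.Agent.Q169.PT.Pdc

/-!
# Part ALG of project PP (helper75)
-/

set_option autoImplicit false

namespace Pool.Agent.L7h75.PP

open scoped Matrix
open Pool.Agent.H919R4.ZS (FinRes)
open Pool.Agent.H919R4.AS (cobdZ coboundariesZ cohomologyZ)
open Pool.Agent.Q169.PT (Mk Sec Mk_single Sec_single Mk_Sec cobdZ_Mk)
open Pool.Agent.L7h59.PP

noncomputable section

variable {G ι : Type} [Group G] {P : ι → Subgroup G}

/-- the value at the base point modulo two -/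
def th (a0 : Cosets P) : (Cosets P →₀ ℤ) →+ ZMod 2 :=
  (Int.castAddHom (ZMod 2)).comp (Finsupp.applyAddHom a0)

theorem th_apply (a0 : Cosets P) (f : Cosets P →₀ ℤ) : th a0 f = ((f a0 : ℤ) : ZMod 2) := rfl

theorem mv_mv (g h : G) (a : Cosets P) : mv g (mv h a) = mv (g * h) a := by
  obtain ⟨i, x⟩ := a
  change (⟨i, g • h • x⟩ : Cosets P) = ⟨i, (g * h) • x⟩
  rw [mul_smul]

theorem mv_one (a : Cosets P) : mv (1 : G) a = a := by
  obtain ⟨i, x⟩ := a
  simp only [mv, one_smul]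

theorem mv_injective (g : G) : Function.Injective (mv (P := P) g) := by
  intro a b h
  have h1 := congrArg (mv g⁻¹) h
  rwa [mv_mv, mv_mv, inv_mul_cancel, mv_one, mv_one] at h1

/-- the base point -/
def bp (P : ι → Subgroup G) (i : ι) : Cosets P := ⟨i, QuotientGroup.mk 1⟩

theorem mv_bp (i : ι) (p : G) (hp : p ∈ P i) : mv p (bp P i) = bp P i := by
  have h : p • (QuotientGroup.mk 1 : G ⧸ P i) = QuotientGroup.mk 1 := by
    change (QuotientGroup.mk (p * 1) : G ⧸ P i) = QuotientGroup.mk 1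
    rw [QuotientGroup.eq]
    simpa using hp
  change (⟨i, p • (QuotientGroup.mk 1 : G ⧸ P i)⟩ : Cosets P) = ⟨i, QuotientGroup.mk 1⟩
  rw [h]

theorem unit_cast (u : ℤˣ) : (((u : ℤˣ) : ℤ) : ZMod 2) = 1 := by
  rcases Int.units_eq_one_or u with h | h
  · rw [h]; rfl
  · rw [h]; decide

theorem th_smul {X : FinRes G} {w : G →* ℤˣ}
    {ε : (Fin (X.n 2) → MonoidAlgebra ℤ G) →+ (Cosets P →₀ ℤ)} (hD : DualPair P X w ε)
    (i : ι) (p : G) (hp : p ∈ P i) (y : Fin (X.n 2) → MonoidAlgebra ℤ G) :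
    th (bp P i) (ε fun j => y j * MonoidAlgebra.single p 1) = th (bp P i) (ε y) := by
  rw [hD.smul, th_apply, th_apply]
  have h1 : (Finsupp.mapDomain (mv p⁻¹) (ε y)) (bp P i) = (ε y) (bp P i) := by
    conv_lhs => rw [← mv_bp i p⁻¹ ((P i).inv_mem hp)]
    exact Finsupp.mapDomain_apply (mv_injective p⁻¹) _ _
  rw [Finsupp.smul_apply, h1, smul_eq_mul, Int.cast_mul, unit_cast, one_mul]

/-- the components -/
def Ph {X : FinRes G} (ε : (Fin (X.n 2) → MonoidAlgebra ℤ G) →+ (Cosets P →₀ ℤ)) (i : ι)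
    (j : Fin (X.n 2)) : MonoidAlgebra ℤ G →+ ZMod 2 :=
  (th (bp P i)).comp (ε.comp (AddMonoidHom.single (fun _ => MonoidAlgebra ℤ G) j))

theorem Ph_apply {X : FinRes G} (ε : (Fin (X.n 2) → MonoidAlgebra ℤ G) →+ (Cosets P →₀ ℤ)) (i : ι)
    (j : Fin (X.n 2)) (a : MonoidAlgebra ℤ G) :
    Ph ε i j a = th (bp P i) (ε (Pi.single j a)) := rfl

theorem Ph_mul {X : FinRes G} {w : G →* ℤˣ}
    {ε : (Fin (X.n 2) → MonoidAlgebra ℤ G) →+ (Cosets P →₀ ℤ)} (hD : DualPair P X w ε)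
    (i : ι) (p : G) (hp : p ∈ P i) (j : Fin (X.n 2)) (a : MonoidAlgebra ℤ G) :
    Ph ε i j (a * MonoidAlgebra.single p 1) = Ph ε i j a := by
  rw [Ph_apply, Ph_apply, ← th_smul hD i p hp (Pi.single j a)]
  congr 2
  funext k
  by_cases h : k = j
  · subst h
    rw [Pi.single_eq_same, Pi.single_eq_same]
  · rw [Pi.single_eq_of_ne h, Pi.single_eq_of_ne h, zero_mul]

theorem Ph_Sec {X : FinRes G} {w : G →* ℤˣ}
    {ε : (Fin (X.n 2) → MonoidAlgebra ℤ G) →+ (Cosets P →₀ ℤ)} (hD : DualPair P X w ε)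
    (i : ι) (j : Fin (X.n 2)) (a : MonoidAlgebra ℤ G) :
    Ph ε i j (Sec (P i) (Mk (P i) a)) = Ph ε i j a := by
  induction a using MonoidAlgebra.induction_linear with
  | zero => rw [map_zero, map_zero]
  | add x y hx hy => rw [map_add, map_add, map_add, map_add, hx, hy]
  | single g r =>
    rw [Mk_single, Sec_single]
    have h2 : (QuotientGroup.mk g : G ⧸ P i) =
        QuotientGroup.mk (Quotient.out (QuotientGroup.mk g : G ⧸ P i)) :=
      (Quotient.out_eq _).symm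
    rw [QuotientGroup.eq] at h2
    have h3 : MonoidAlgebra.single (Quotient.out (QuotientGroup.mk g : G ⧸ P i)) r =
        (MonoidAlgebra.single g r : MonoidAlgebra ℤ G) *
          MonoidAlgebra.single (g⁻¹ * Quotient.out (QuotientGroup.mk g : G ⧸ P i)) 1 := by
      rw [MonoidAlgebra.single_mul_single, mul_one, mul_inv_cancel_left]
    rw [h3]
    exact Ph_mul hD i _ h2 j _

theorem th_sum {X : FinRes G} (ε : (Fin (X.n 2) → MonoidAlgebra ℤ G) →+ (Cosets P →₀ ℤ)) (i : ι)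
    (y : Fin (X.n 2) → MonoidAlgebra ℤ G) : th (bp P i) (ε y) = ∑ j, Ph ε i j (y j) := by
  conv_lhs => rw [← Finset.univ_sum_single y]
  rw [map_sum, map_sum]
  rfl

/-- part ALG -/
theorem s_ALG : S_ALG := by
  intro G ι _ P X w ε hl hD i hinf hs
  rw [QuotientAddGroup.subsingleton_iff, AddSubgroup.addSubgroupOf_eq_top] at hs
  have hn : X.n 3 = 0 := X.n_eq_zero 3 (by omega)
  have hzero : ∀ y, th (bp P i) (ε y) = 0 := by
    intro y
    have hz : (fun j => Mk (P i) (y j)) ∈ (cobdZ X (G ⧸ P i) 2).ker := by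
      rw [AddMonoidHom.mem_ker]
      funext k
      exact absurd k.2 (by
        have : X.n (2 + 1) = 0 := hn
        omega)
    obtain ⟨x, hx⟩ := hs hz
    have hx' : ∀ k, Mk (P i) ((X.d 1 *ᵥ fun j => Sec (P i) (x j)) k) = Mk (P i) (y k) := by
      intro k
      have h1 := congrFun (cobdZ_Mk X (P i) 1 fun j => Sec (P i) (x j)) k
      rw [← h1]
      have h2 : (fun j => Mk (P i) (Sec (P i) (x j))) = x := funext fun j => Mk_Sec (P i) (x j)
      rw [h2]
      exact congrFun hx k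
    have h3 : ε (X.d 1 *ᵥ fun j => Sec (P i) (x j)) = 0 := (hD.ker _).2 ⟨_, rfl⟩
    have h4 : th (bp P i) (ε (X.d 1 *ᵥ fun j => Sec (P i) (x j))) = th (bp P i) (ε y) := by
      rw [th_sum, th_sum]
      refine Finset.sum_congr rfl fun j _ => ?_
      rw [← Ph_Sec hD i j (y j), ← Ph_Sec hD i j ((X.d 1 *ᵥ fun j => Sec (P i) (x j)) j), hx']
    rw [← h4, h3, map_zero]
  obtain ⟨a, ha⟩ := exists_ne (QuotientGroup.mk 1 : G ⧸ P i)
  have hne : (⟨i, a⟩ : Cosets P) ≠ bp P i := by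
    intro h
    apply ha
    have := (Sigma.mk.inj_iff.1 h).2
    exact eq_of_heq this
  obtain ⟨y, hy⟩ := (hD.range (Finsupp.single (⟨i, a⟩ : Cosets P) 1 - Finsupp.single (bp P i) 1)).2 (by
    rw [Finsupp.sum_sub_index (fun _ _ _ => rfl), Finsupp.sum_single_index rfl,
      Finsupp.sum_single_index rfl, sub_self])
  have h5 := hzero y
  rw [hy, th_apply, Finsupp.sub_apply, Finsupp.single_eq_same, Finsupp.single_eq_of_ne hne.symm] at h5
  revert h5
  decide

end

end Pool.Agent.L7h75.PP
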